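import Mathlib
import Pool.Agent.Results.MP_158c61_gt.CantorCube

set_option autoImplicit false

/-!
# Maps of Cantor cubes: countable supports, factorisations, function spaces
-/

open Set Topology Cardinal TopologicalSpace

namespace Pool.Agent.Y509.DyadicCp

open Pool.Agent.Results.MP_158c61_gt.CantorCube (Subparacompact HereditarilySubparacompact
  DyadicCompact DiscreteFamily)

/-- two closed-apart points of a cube are separated by finitely many coordinates -/
lemma fin_sep {κ : Type} (K : Set ((κ → Bool) × (κ → Bool))) (hK : IsClosed K)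
    (hd : ∀ x, (x, x) ∉ K) : ∃ F : Finset κ, ∀ x y, (x, y) ∈ K → ∃ k ∈ F, x k ≠ y k := by
  have hc : IsCompact K := hK.isCompact
  have ho : ∀ k : κ, IsOpen {p : (κ → Bool) × (κ → Bool) | p.1 k ≠ p.2 k} := by
    intro k
    exact isOpen_ne_fun ((continuous_apply k).comp continuous_fst)
      ((continuous_apply k).comp continuous_snd)
  obtain ⟨t, ht⟩ := hc.elim_finite_subcover (fun k : κ => {p : (κ → Bool) × (κ → Bool) |
    p.1 k ≠ p.2 k}) ho (by
      rintro ⟨x, y⟩ hxy
      rw [mem_iUnion]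
      by_contra hcon
      push Not at hcon
      have : x = y := by
        funext k
        by_contra hk
        exact hcon k hk
      rw [this] at hxy
      exact hd y hxy)
  refine ⟨t, fun x y hxy => ?_⟩
  have := ht hxy
  simp only [mem_iUnion] at this
  obtain ⟨k, hk, hk2⟩ := this
  exact ⟨k, hk, hk2⟩

/-- a continuous real function on a cube depends on countably many coordinates -/
lemma countable_support {κ : Type} (g : (κ → Bool) → ℝ) (hg : Continuous g) :
    ∃ J : Set κ, J.Countable ∧ ∀ x y, (∀ k ∈ J, x k = y k) → g x = g y := by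
  have h1 : ∀ n : ℕ, ∃ F : Finset κ, ∀ x y, (1 : ℝ) / (n + 1) ≤ |g x - g y| →
      ∃ k ∈ F, x k ≠ y k := by
    intro n
    obtain ⟨F, hF⟩ := fin_sep {p : (κ → Bool) × (κ → Bool) | (1 : ℝ) / (n + 1) ≤ |g p.1 - g p.2|}
      (isClosed_le continuous_const
        (((hg.comp continuous_fst).sub (hg.comp continuous_snd)).abs)) (by
        intro x hx
        simp only [mem_ofPred_eq, sub_self, abs_zero] at hx
        have : (0 : ℝ) < 1 / (n + 1) := by positivity
        linarith)
    exact ⟨F, fun x y h => hF x y h⟩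
  choose F hF using h1
  refine ⟨⋃ n, (F n : Set κ), countable_iUnion fun n => (F n).countable_toSet, fun x y hxy => ?_⟩
  by_contra hne
  have hpos : 0 < |g x - g y| := abs_pos.2 (sub_ne_zero.2 hne)
  obtain ⟨n, hn⟩ := exists_nat_one_div_lt hpos
  obtain ⟨k, hk, hk2⟩ := hF n x y hn.le
  exact hk2 (hxy k (mem_iUnion.2 ⟨n, hk⟩))

/-- a continuous image of a cube with a base of size at most `#Z` is an image of the cube `2 ^ Z` -/
lemma factor {X : Type} [TopologicalSpace X] [CompactSpace X] [T2Space X] {κ : Type}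
    (f : (κ → Bool) → X) (hf : Continuous f) (hfs : Function.Surjective f) (Z : Type)
    (hZ : ℵ₀ ≤ #Z) (B : Set (Set X)) (hB : IsTopologicalBasis B) (hBc : #B ≤ #Z) :
    ∃ f' : (Z → Bool) → X, Continuous f' ∧ Function.Surjective f' := by
  classical
  have h1 : ∀ p : B × B, ∃ F : Finset κ, Disjoint (closure p.1.1) (closure p.2.1) →
      ∀ x y, f x ∈ closure p.1.1 → f y ∈ closure p.2.1 → ∃ k ∈ F, x k ≠ y k := by
    intro p
    by_cases hp : Disjoint (closure p.1.1) (closure p.2.1)
    · obtain ⟨F, hF⟩ := fin_sep ((f ⁻¹' closure p.1.1) ×ˢ (f ⁻¹' closure p.2.1))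
        ((isClosed_closure.preimage hf).prod (isClosed_closure.preimage hf)) (by
          rintro x ⟨hx1, hx2⟩
          exact hp.le_bot ⟨hx1, hx2⟩)
      exact ⟨F, fun _ x y hx hy => hF x y ⟨hx, hy⟩⟩
    · exact ⟨∅, fun h => absurd h hp⟩
  choose F hF using h1
  let J : Set κ := ⋃ p, (F p : Set κ)
  have hJ : #J ≤ #Z := by
    refine (Cardinal.mk_iUnion_le _).trans ?_
    have h2 : #(B × B) ≤ #Z := by
      rw [Cardinal.mk_prod, Cardinal.lift_id]
      exact (mul_le_mul' hBc hBc).trans (Cardinal.mul_eq_self hZ).le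
    have h3 : (⨆ p, #(F p : Set κ)) ≤ #Z := by
      refine ciSup_le' fun p => ?_
      exact ((Cardinal.lt_aleph0_iff_set_finite.2 (F p).finite_toSet).le).trans hZ
    exact (mul_le_mul' h2 h3).trans (Cardinal.mul_eq_self hZ).le
  have hdep : ∀ x y, (∀ k ∈ J, x k = y k) → f x = f y := by
    intro x y hxy
    by_contra hne
    obtain ⟨U, hxU, hU, V, hyV, hV, hUV⟩ := exists_open_nhds_disjoint_closure hne
    obtain ⟨U', hU'B, hxU', hU'U⟩ := hB.exists_subset_of_mem_open hxU hU
    obtain ⟨V', hV'B, hyV', hV'V⟩ := hB.exists_subset_of_mem_open hyV hV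
    obtain ⟨k, hk, hk2⟩ := hF (⟨U', hU'B⟩, ⟨V', hV'B⟩)
      (hUV.mono (closure_mono hU'U) (closure_mono hV'V)) x y (subset_closure hxU')
      (subset_closure hyV')
    exact hk2 (hxy k (mem_iUnion.2 ⟨_, hk⟩))
  obtain ⟨σ⟩ : Nonempty (J ↪ Z) := hJ
  let e : (Z → Bool) → (κ → Bool) := fun z k => if h : k ∈ J then z (σ ⟨k, h⟩) else false
  have he : Continuous e := by
    refine continuous_pi fun k => ?_
    by_cases h : k ∈ J
    · simp only [e, h, dif_pos]
      exact continuous_apply _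
    · simp only [e, h, dif_neg, not_false_eq_true]
      exact continuous_const
  refine ⟨f ∘ e, hf.comp he, fun x => ?_⟩
  obtain ⟨y, rfl⟩ := hfs x
  refine ⟨Function.extend σ (fun k => y k.1) (fun _ => false), hdep _ _ fun k hk => ?_⟩
  simp only [e, hk, dif_pos]
  exact σ.injective.extend_apply _ _ _

/-- subparacompactness is a topological property -/
lemma subparacompact_homeo {Y W : Type} [TopologicalSpace Y] [TopologicalSpace W] (φ : Y ≃ₜ W)
    (h : Subparacompact W) : Subparacompact Y := by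
  intro U hU hUc
  obtain ⟨D, h1, h2, h3, h4⟩ := h ((fun u => φ '' u) '' U) (by
    rintro _ ⟨u, hu, rfl⟩
    exact φ.isOpenMap _ (hU u hu)) (by
    rw [eq_univ_iff_forall]
    intro w
    have : φ.symm w ∈ ⋃₀ U := by rw [hUc]; exact mem_univ _
    obtain ⟨u, hu, hwu⟩ := this
    exact ⟨φ '' u, ⟨u, hu, rfl⟩, ⟨_, hwu, φ.apply_symm_apply w⟩⟩)
  refine ⟨fun n => (fun A => φ ⁻¹' A) '' (D n), fun n y => ?_, ?_, ?_, ?_⟩
  · obtain ⟨V, hV, hV2⟩ := h1 n (φ y)
    refine ⟨φ ⁻¹' V, φ.continuous.continuousAt hV, ?_⟩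
    rintro _ ⟨A, hA, rfl⟩ _ ⟨B, hB, rfl⟩ ⟨a, ha1, ha2⟩ ⟨b, hb1, hb2⟩
    have := hV2 A hA B hB ⟨φ a, ha1, ha2⟩ ⟨φ b, hb1, hb2⟩
    rw [this]
  · rintro n _ ⟨A, hA, rfl⟩
    exact (h2 n A hA).preimage φ.continuous
  · rintro n _ ⟨A, hA, rfl⟩
    obtain ⟨_, ⟨u, hu, rfl⟩, hAu⟩ := h3 n A hA
    refine ⟨u, hu, fun y hy => ?_⟩
    obtain ⟨y', hy', he⟩ := hAu hy
    rwa [← φ.injective he]
  · rw [eq_univ_iff_forall]
    intro y
    have : φ y ∈ ⋃ n, ⋃₀ (D n) := by rw [h4]; exact mem_univ _
    obtain ⟨n, A, hA, hyA⟩ := mem_iUnion.1 this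
    exact mem_iUnion.2 ⟨n, φ ⁻¹' A, ⟨A, hA, rfl⟩, hyA⟩

lemma hereditarily_of_embedding {Y W : Type} [TopologicalSpace Y] [TopologicalSpace W] (e : Y → W)
    (he : IsEmbedding e) (h : HereditarilySubparacompact W) : HereditarilySubparacompact Y :=
  fun S => subparacompact_homeo (he.homeomorphImage S) (h (e '' S))

/-- `C_p(X)` embeds into `C_p(X')` if `X` is a continuous image of `X'` -/
lemma isEmbedding_comp {X' X : Type} [TopologicalSpace X'] [TopologicalSpace X] (f : X' → X)
    (hf : Continuous f) (hfs : Function.Surjective f) :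
    IsEmbedding (fun g : {g : X → ℝ // Continuous g} =>
      (⟨g.1 ∘ f, g.2.comp hf⟩ : {g : X' → ℝ // Continuous g})) := by
  have h1 : IsInducing (fun G : X → ℝ => G ∘ f) := by
    refine ⟨?_⟩
    have h2 : (Pi.topologicalSpace : TopologicalSpace (X' → ℝ)) =
      ⨅ i : X', TopologicalSpace.induced (fun G : X' → ℝ => G i) inferInstance := rfl
    have h3 : (Pi.topologicalSpace : TopologicalSpace (X → ℝ)) =
      ⨅ i : X, TopologicalSpace.induced (fun G : X → ℝ => G i) inferInstance := rfl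
    rw [h2, h3, induced_iInf]
    simp only [induced_compose]
    exact (hfs.iInf_comp (fun i : X =>
      TopologicalSpace.induced (fun G : X → ℝ => G i) inferInstance)).symm
  have h4 : IsInducing (fun g : {g : X → ℝ // Continuous g} => g.1 ∘ f) :=
    h1.comp IsInducing.subtypeVal
  refine ⟨?_, ?_⟩
  · exact IsInducing.of_comp (Continuous.subtype_mk h4.continuous _) continuous_subtype_val h4
  · intro g g' h
    apply Subtype.ext
    funext x
    obtain ⟨y, rfl⟩ := hfs x
    exact congrFun (congrArg Subtype.val h) y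

end Pool.Agent.Y509.DyadicCp
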