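import Mathlib
import Pool.Agent.H650R2.SqER
import Pool.Agent.Results.MP_158c61_gt.CantorCube

set_option autoImplicit false

/-!
# Subparacompact function spaces have extent at most `2 ^ 𝔠`
-/

open Set Topology Cardinal

namespace Pool.Agent.Y509.DyadicCp

open Pool.Agent.Results.MP_158c61_gt.CantorCube (Subparacompact HereditarilySubparacompact
  DyadicCompact DiscreteFamily)

/-- the space `C_p(X)` -/
abbrev Fn (X : Type) [TopologicalSpace X] : Type := {f : X → ℝ // Continuous f}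

lemma nhds_fin {X : Type} [TopologicalSpace X] (f : Fn X) (N : Set (Fn X)) (hN : N ∈ 𝓝 f) :
    ∃ I : Finset X, ∀ g : Fn X, (∀ x ∈ I, g.1 x = f.1 x) → g ∈ N := by
  rw [mem_nhds_subtype] at hN
  obtain ⟨U, hU, hUN⟩ := hN
  rw [nhds_pi, Filter.mem_pi] at hU
  obtain ⟨I, hI, t, ht, hsub⟩ := hU
  refine ⟨hI.toFinset, fun g hg => hUN ?_⟩
  apply hsub
  intro x hx
  have h1 : g.1 x = f.1 x := hg x (by simpa using hx)
  rw [h1]
  exact mem_of_mem_nhds (ht x)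

theorem card_le_of_family {X : Type} [TopologicalSpace X] (hS : Subparacompact (Fn X))
    (J : Type) (φ : J → Fn X)
    (hD : ∀ f : Fn X, ∃ O : Set (Fn X), IsOpen O ∧ f ∈ O ∧ ∀ i j, φ i ∈ O → φ j ∈ O → i = j) :
    #J ≤ 2 ^ 𝔠 := by
  classical
  by_contra hcon
  rw [not_le] at hcon
  have hX : Nonempty X := by
    by_contra hX
    rw [not_nonempty_iff] at hX
    have h1 : #J ≤ 1 := by
      rw [Cardinal.le_one_iff_subsingleton]
      refine ⟨fun a b => ?_⟩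
      obtain ⟨O, -, h1, h2⟩ := hD (φ a)
      refine h2 a b h1 ?_
      have : φ b = φ a := by
        apply Subtype.ext
        funext x
        exact (hX.false x).elim
      rw [this]
      exact h1
    have h2 : (1 : Cardinal) ≤ 2 ^ 𝔠 := by
      have := Cardinal.one_le_iff_pos.2 (Cardinal.power_pos 𝔠 (show (0 : Cardinal) < 2 by norm_num))
      exact this
    exact absurd (h1.trans h2) (not_le.2 hcon)
  obtain ⟨x0⟩ := hX
  obtain ⟨G, hG1, hG2, hG3, hG4⟩ := hS {O | IsOpen O ∧ ∀ i j, φ i ∈ O → φ j ∈ O → i = j}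
    (fun u hu => hu.1) (by
    rw [eq_univ_iff_forall]
    intro f
    obtain ⟨O, h1, h2, h3⟩ := hD f
    exact ⟨O, ⟨h1, h3⟩, h2⟩)
  have hN : ∀ (a : J) (n : ℕ), ∃ N ∈ 𝓝 (φ a), ∀ A ∈ G n, (A ∩ N).Nonempty → φ a ∈ A := by
    intro a n
    obtain ⟨V, hV, hV2⟩ := hG1 n (φ a)
    by_cases h : ∃ A ∈ G n, (A ∩ V).Nonempty ∧ φ a ∉ A
    · obtain ⟨A, hA, hAV, haA⟩ := h
      refine ⟨V ∩ Aᶜ, Filter.inter_mem hV ((hG2 n A hA).isOpen_compl.mem_nhds haA), ?_⟩
      rintro B hB ⟨y, hyB, hyV, hyA⟩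
      have := hV2 B hB A hA ⟨y, hyB, hyV⟩ hAV
      rw [this] at hyB
      exact absurd hyB hyA
    · push Not at h
      exact ⟨V, hV, h⟩
  choose N hN1 hN2 using hN
  have hI : ∀ (a : J) (n : ℕ), ∃ I : Finset X, ∀ g : Fn X, (∀ x ∈ I, g.1 x = (φ a).1 x) →
      g ∈ N a n := fun a n => nhds_fin (φ a) (N a n) (hN1 a n)
  choose I hI using hI
  have hC : ∀ a : J, ∃ e : ℕ → X, ∀ n, ∀ x ∈ I a n, x ∈ range e := by
    intro a
    have h1 : (insert x0 (⋃ n, (I a n : Set X))).Countable :=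
      (countable_iUnion fun n => (I a n).countable_toSet).insert x0
    obtain ⟨e, he⟩ := h1.exists_eq_range ⟨x0, mem_insert _ _⟩
    refine ⟨e, fun n x hx => ?_⟩
    rw [← he]
    exact mem_insert_of_mem _ (mem_iUnion.2 ⟨n, hx⟩)
  choose e he using hC
  letI : LinearOrder J := linearOrderOfSTO WellOrderingRel
  haveI : WellFoundedLT J := ⟨WellOrderingRel.isWellOrder.wf⟩
  let F : J → J → (ℕ → ℝ) × (ℕ → ℝ) :=
    fun a b => (fun n => (φ b).1 (e a n), fun n => (φ a).1 (e b n))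
  have hcR : #(ℕ → ℝ) = 𝔠 := by
    simp only [Cardinal.mk_pi, Cardinal.prod_const, Cardinal.mk_real, Cardinal.lift_id,
      Cardinal.mk_nat, Cardinal.lift_uzero, Cardinal.continuum_power_aleph0]
  have hcP : #((ℕ → ℝ) × (ℕ → ℝ)) ≤ 𝔠 := by
    rw [Cardinal.mk_prod, Cardinal.lift_id, hcR, Cardinal.continuum_mul_self]
  obtain ⟨W, -, hWc, c, d, hW⟩ := Pool.Agent.H650R2.Sq.erdos_rado (X := J) (C := (ℕ → ℝ) × (ℕ → ℝ))
    (θ := 𝔠) Cardinal.aleph0_le_continuum hcP Set.univ (by rwa [Cardinal.mk_univ]) F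
  have hWi : W.Infinite := by
    rw [← Set.infinite_coe_iff, Cardinal.infinite_iff, hWc]
    exact Cardinal.aleph0_le_continuum.trans (Order.le_succ _)
  obtain ⟨t, htW, ht3⟩ := hWi.exists_subset_card_eq 3
  let o := t.orderEmbOfFin ht3
  have ho : ∀ i, o i ∈ W := fun i => htW (t.orderEmbOfFin_mem ht3 i)
  have h01 : o 0 < o 1 := o.strictMono (by decide)
  have h12 : o 1 < o 2 := o.strictMono (by decide)
  have h02 : o 0 < o 2 := h01.trans h12
  have e1 : F (o 0) (o 2) = F (o 0) (o 1) := by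
    rw [(hW _ (ho 0)).2 _ (ho 2) h02, (hW _ (ho 0)).2 _ (ho 1) h01]
  have e2 : F (o 0) (o 2) = F (o 1) (o 2) := by
    rw [(hW _ (ho 0)).2 _ (ho 2) h02, (hW _ (ho 1)).2 _ (ho 2) h12]
  have e3 : ∀ n, (φ (o 2)).1 (e (o 0) n) = (φ (o 1)).1 (e (o 0) n) := fun n =>
    congrFun (congrArg Prod.fst e1) n
  have e4 : ∀ n, (φ (o 0)).1 (e (o 2) n) = (φ (o 1)).1 (e (o 2) n) := fun n =>
    congrFun (congrArg Prod.snd e2) n
  let s : Fn X := ⟨fun x => (φ (o 0)).1 x + (φ (o 2)).1 x - (φ (o 1)).1 x,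
    ((φ (o 0)).2.add (φ (o 2)).2).sub (φ (o 1)).2⟩
  have hs0 : ∀ n, s ∈ N (o 0) n := by
    intro n
    apply hI
    intro x hx
    obtain ⟨m, rfl⟩ := he (o 0) n x hx
    change (φ (o 0)).1 _ + (φ (o 2)).1 _ - (φ (o 1)).1 _ = _
    rw [e3 m]
    ring
  have hs2 : ∀ n, s ∈ N (o 2) n := by
    intro n
    apply hI
    intro x hx
    obtain ⟨m, rfl⟩ := he (o 2) n x hx
    change (φ (o 0)).1 _ + (φ (o 2)).1 _ - (φ (o 1)).1 _ = _
    rw [e4 m]
    ring
  have hs : s ∈ ⋃ n, ⋃₀ (G n) := by rw [hG4]; exact mem_univ _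
  obtain ⟨n, A, hA, hsA⟩ := mem_iUnion.1 hs
  obtain ⟨u, hu, hAu⟩ := hG3 n A hA
  have h0 : φ (o 0) ∈ A := hN2 (o 0) n A hA ⟨s, hsA, hs0 n⟩
  have h2 : φ (o 2) ∈ A := hN2 (o 2) n A hA ⟨s, hsA, hs2 n⟩
  exact h02.ne (hu.2 _ _ (hAu h0) (hAu h2))

/-- **The extent of a subparacompact function space is at most `2 ^ 𝔠`.** -/
theorem card_closedDiscrete_le {X : Type} [TopologicalSpace X] (hS : Subparacompact (Fn X))
    (D : Set (Fn X)) (hDc : IsClosed D) (hDd : DiscreteTopology D) : #D ≤ 2 ^ 𝔠 := by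
  refine card_le_of_family hS D Subtype.val (fun f => ?_)
  by_cases hf : f ∈ D
  · have h1 : IsOpen ({⟨f, hf⟩} : Set D) := isOpen_discrete _
    obtain ⟨O, hO, hO2⟩ := isOpen_induced_iff.1 h1
    refine ⟨O, hO, ?_, ?_⟩
    · have : (⟨f, hf⟩ : D) ∈ Subtype.val ⁻¹' O := by rw [hO2]; rfl
      exact this
    · have key : ∀ g ∈ O ∩ D, g = f := by
        rintro g ⟨hg, hgD⟩
        have : (⟨g, hgD⟩ : D) ∈ Subtype.val ⁻¹' O := hg
        rw [hO2] at this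
        exact congrArg Subtype.val this
      intro a b ha hb
      exact Subtype.ext ((key a.1 ⟨ha, a.2⟩).trans (key b.1 ⟨hb, b.2⟩).symm)
  · exact ⟨Dᶜ, hDc.isOpen_compl, hf, fun a b ha _ => absurd a.2 ha⟩

end Pool.Agent.Y509.DyadicCp
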