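import Mathlib
import Pool.Agent.Helper669.KDelta
import Pool.Agent.Y509.DyadicCp.Extent
import Pool.Agent.Y509.DyadicCp.Basic

set_option autoImplicit false

/-!
# Dyadic compact spaces with a subparacompact function space have weight at most `2 ^ 𝔠`
-/

open Set Topology Cardinal TopologicalSpace

namespace Pool.Agent.Y509.DyadicCp

open Pool.Agent.Results.MP_158c61_gt.CantorCube (Subparacompact HereditarilySubparacompact
  DyadicCompact DiscreteFamily)
open Pool.Agent.Helper669.KDelta (small_iUnion small_union weak_delta)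

lemma pigeon {E P : Type} {c : Cardinal.{0}} (hc : ℵ₀ ≤ c) (T : Set E) (hT : ¬ #T ≤ c) (φ : E → P)
    (hP : #P ≤ c) : ∃ p, ¬ #{g | g ∈ T ∧ φ g = p} ≤ c := by
  by_contra hcon
  push Not at hcon
  apply hT
  refine (Cardinal.mk_le_mk_of_subset (?_ : T ⊆ ⋃ p, {g | g ∈ T ∧ φ g = p})).trans
    (small_iUnion hc hP _ hcon)
  intro g hg
  exact mem_iUnion.2 ⟨φ g, hg, rfl⟩

lemma aleph0_le_two : ℵ₀ ≤ (2 : Cardinal.{0}) ^ 𝔠 :=
  Cardinal.aleph0_le_continuum.trans (Cardinal.cantor _).le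

lemma two_power_aleph0 : ((2 : Cardinal.{0}) ^ 𝔠) ^ ℵ₀ = 2 ^ 𝔠 := by
  rw [← Cardinal.power_mul, Cardinal.continuum_mul_aleph0]

lemma nhds_fin_bool {κ : Type} (x : κ → Bool) (N : Set (κ → Bool)) (hN : N ∈ 𝓝 x) :
    ∃ F : Finset κ, ∀ y : κ → Bool, (∀ k ∈ F, y k = x k) → y ∈ N := by
  rw [nhds_pi, Filter.mem_pi] at hN
  obtain ⟨I, hI, t, ht, hsub⟩ := hN
  refine ⟨hI.toFinset, fun y hy => ?_⟩
  apply hsub
  intro k hk
  have h1 : y k = x k := hy k (by simpa using hk)
  rw [h1]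
  exact mem_of_mem_nhds (ht k)

theorem card_fn_le {X : Type} [TopologicalSpace X] {κ : Type} (f : (κ → Bool) → X)
    (hf : Continuous f) (hfs : Function.Surjective f) (hS : Subparacompact (Fn X)) :
    #(Fn X) ≤ 2 ^ 𝔠 := by
  classical
  by_contra hE
  have hc := aleph0_le_two
  have hsup : ∀ g : Fn X, ∃ J : Set κ, J.Countable ∧
      ∀ x y, (∀ k ∈ J, x k = y k) → g.1 (f x) = g.1 (f y) :=
    fun g => countable_support (g.1 ∘ f) (g.2.comp hf)
  choose J hJc hJ using hsup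
  have hlt : ∀ g : Fn X, #(J g) < 2 ^ 𝔠 := fun g =>
    ((Cardinal.le_aleph0_iff_set_countable.2 (hJc g)).trans Cardinal.aleph0_le_continuum).trans_lt
      (Cardinal.cantor _)
  obtain ⟨T, R, hT, hR, hTR⟩ := weak_delta hc hE J hlt
  -- the exact root
  have hw : ∀ g : Fn X, ∃ w : ℕ → Option R, ∀ r : R, some r ∈ range w ↔ r.1 ∈ J g := by
    intro g
    have h1 : (insert none (some '' {r : R | r.1 ∈ J g})).Countable :=
      (((hJc g).preimage Subtype.val_injective).image some).insert none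
    obtain ⟨w, hw⟩ := h1.exists_eq_range ⟨none, mem_insert _ _⟩
    refine ⟨w, fun r => ?_⟩
    rw [← hw]
    simp
  choose w hw using hw
  have hP1 : #(ℕ → Option R) ≤ 2 ^ 𝔠 := by
    simp only [Cardinal.mk_pi, Cardinal.prod_const, Cardinal.lift_id, Cardinal.mk_nat,
      Cardinal.mk_option]
    have h1 : #R + 1 ≤ 2 ^ 𝔠 := by
      have h2 : (1 : Cardinal.{0}) ≤ 2 ^ 𝔠 := Cardinal.one_lt_aleph0.le.trans hc
      exact (add_le_add hR h2).trans (Cardinal.add_eq_self hc).le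
    exact (Cardinal.power_le_power_right h1).trans two_power_aleph0.le
  obtain ⟨w0, hT1⟩ := pigeon hc T hT w hP1
  let T1 : Set (Fn X) := {g | g ∈ T ∧ w g = w0}
  let R0 : Set κ := {k | ∃ h : k ∈ R, some (⟨k, h⟩ : R) ∈ range w0}
  have hR0 : ∀ g ∈ T1, ∀ k, k ∈ R0 ↔ k ∈ J g ∧ k ∈ R := by
    rintro g ⟨-, hg⟩ k
    constructor
    · rintro ⟨h, h2⟩
      rw [← hg, hw] at h2
      exact ⟨h2, h⟩
    · rintro ⟨h, h2⟩
      refine ⟨h2, ?_⟩
      rw [← hg, hw]
      exact h
  have hT1ne : T1.Nonempty := by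
    by_contra hne
    rw [not_nonempty_iff_eq_empty] at hne
    apply hT1
    change #T1 ≤ _
    rw [hne]
    simp
  have hR0c : R0.Countable := by
    obtain ⟨g, hg⟩ := hT1ne
    exact (hJc g).mono fun k hk => ((hR0 g hg k).1 hk).1
  have hdisj : ∀ g ∈ T1, ∀ g' ∈ T1, ∀ k ∈ J g, k ∈ J g' → k ∉ R0 → g = g' := by
    intro g hg g' hg' k hk hk' hkR
    by_contra hne
    exact hkR ((hR0 g hg k).2 ⟨hk, hTR g hg.1 g' hg'.1 hne ⟨hk, hk'⟩⟩)
  have hcR0 : #(R0 → Bool) ≤ 𝔠 := by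
    simp only [Cardinal.mk_pi, Cardinal.prod_const, Cardinal.lift_id, Cardinal.mk_fintype,
      Fintype.card_bool]
    have := Cardinal.le_aleph0_iff_set_countable.2 hR0c
    calc (((2 : ℕ) : Cardinal.{0}) ^ #R0) ≤ ((2 : ℕ) : Cardinal.{0}) ^ ℵ₀ :=
          Cardinal.power_le_power_left (by norm_num) this
      _ = 𝔠 := by
        rw [Nat.cast_ofNat, Cardinal.two_power_aleph0]
  -- functions that depend on the root only
  let Bd : Set (Fn X) := {g | ∀ x y, (∀ k ∈ R0, x k = y k) → g.1 (f x) = g.1 (f y)}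
  have hBd : #Bd ≤ 2 ^ 𝔠 := by
    let ext : (R0 → Bool) → (κ → Bool) := fun ρ k => if h : k ∈ R0 then ρ ⟨k, h⟩ else false
    have hinj : Function.Injective (fun (g : Bd) (ρ : R0 → Bool) => g.1.1 (f (ext ρ))) := by
      intro g g' h
      apply Subtype.ext
      apply Subtype.ext
      funext z
      obtain ⟨x, rfl⟩ := hfs z
      have h1 : ∀ k ∈ R0, x k = ext (fun k => x k.1) k := by
        intro k hk
        simp only [ext, hk, dif_pos]
      rw [g.2 x _ h1, g'.2 x _ h1]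
      exact congrFun h (fun k => x k.1)
    refine (Cardinal.mk_le_of_injective hinj).trans ?_
    have h2 : #((R0 → Bool) → ℝ) = 𝔠 ^ #(R0 → Bool) := by
      rw [← Cardinal.mk_real]
      simp only [Cardinal.mk_pi, Cardinal.prod_const, Cardinal.lift_id]
    rw [h2]
    have h3 : (1 : Cardinal.{0}) ≤ 𝔠 := Cardinal.one_lt_aleph0.le.trans Cardinal.aleph0_le_continuum
    calc 𝔠 ^ #(R0 → Bool) ≤ 𝔠 ^ 𝔠 :=
          Cardinal.power_le_power_left (zero_lt_one.trans_le h3).ne' hcR0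
      _ = 2 ^ 𝔠 := by
        rw [← Cardinal.two_power_aleph0, ← Cardinal.power_mul, Cardinal.two_power_aleph0,
          Cardinal.aleph0_mul_continuum]
  let T2 : Set (Fn X) := T1 \ Bd
  have hT2 : ¬ #T2 ≤ 2 ^ 𝔠 := by
    intro h
    apply hT1
    refine (Cardinal.mk_le_mk_of_subset (?_ : T1 ⊆ T2 ∪ Bd)).trans (small_union hc h hBd)
    intro g hg
    by_cases hgB : g ∈ Bd
    · exact Or.inr hgB
    · exact Or.inl ⟨hg, hgB⟩
  have hdata : ∀ g : Fn X, ∃ (u v : κ → Bool) (p q : ℚ), g ∈ T2 → (∀ k ∈ R0, u k = v k) ∧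
      g.1 (f u) < p ∧ p < q ∧ (q : ℝ) < g.1 (f v) := by
    intro g
    by_cases hg : g ∈ T2
    · have h1 : ∃ x y, (∀ k ∈ R0, x k = y k) ∧ g.1 (f x) ≠ g.1 (f y) := by
        by_contra hcon
        push Not at hcon
        exact hg.2 hcon
      have h2 : ∃ x y, (∀ k ∈ R0, x k = y k) ∧ g.1 (f x) < g.1 (f y) := by
        obtain ⟨x, y, hxy, hne⟩ := h1
        rcases lt_or_gt_of_ne hne with h | h
        · exact ⟨x, y, hxy, h⟩
        · exact ⟨y, x, fun k hk => (hxy k hk).symm, h⟩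
      obtain ⟨x, y, hxy, hlt⟩ := h2
      obtain ⟨p, hp1, hp2⟩ := exists_rat_btwn hlt
      obtain ⟨q, hq1, hq2⟩ := exists_rat_btwn hp2
      exact ⟨x, y, p, q, fun _ => ⟨hxy, hp1, by exact_mod_cast hq1, hq2⟩⟩
    · exact ⟨fun _ => false, fun _ => false, 0, 0, fun h => absurd h hg⟩
  choose u v p q hpq using hdata
  have hP2 : #((R0 → Bool) × ℚ × ℚ) ≤ 2 ^ 𝔠 := by
    have h1 : #ℚ ≤ 2 ^ 𝔠 := (Cardinal.mk_le_aleph0).trans hc
    have h2 : #(R0 → Bool) ≤ 2 ^ 𝔠 := hcR0.trans (Cardinal.cantor _).le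
    rw [Cardinal.mk_prod, Cardinal.mk_prod, Cardinal.lift_id, Cardinal.lift_id, Cardinal.lift_id]
    exact (mul_le_mul' h2 ((mul_le_mul' h1 h1).trans (Cardinal.mul_eq_self hc).le)).trans
      (Cardinal.mul_eq_self hc).le
  obtain ⟨⟨ρ, p0, q0⟩, hT3⟩ := pigeon hc T2 hT2 (fun g => ((fun k : R0 => u g k.1), p g, q g)) hP2
  let T3 : Set (Fn X) := {g | g ∈ T2 ∧ ((fun k : R0 => u g k.1), p g, q g) = (ρ, p0, q0)}
  have h3ρ : ∀ g ∈ T3, ∀ k (hk : k ∈ R0), u g k = ρ ⟨k, hk⟩ := by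
    rintro g ⟨-, hg⟩ k hk
    exact congrFun (congrArg Prod.fst hg) ⟨k, hk⟩
  have h3p : ∀ g ∈ T3, p g = p0 := fun g hg => congrArg (fun z => z.2.1) hg.2
  have h3q : ∀ g ∈ T3, q g = q0 := fun g hg => congrArg (fun z => z.2.2) hg.2
  apply hT3
  change #T3 ≤ _
  -- merged points
  let mrg : (Fn X → Bool) → (κ → Bool) := fun σ k =>
    if hk : ∃ g ∈ T3, k ∈ J g ∧ k ∉ R0 then
      (if σ hk.choose = true then v hk.choose k else u hk.choose k)
    else (if hr : k ∈ R0 then ρ ⟨k, hr⟩ else false)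
  have hmrg : ∀ σ, ∀ g ∈ T3, ∀ k ∈ J g, mrg σ k = if σ g = true then v g k else u g k := by
    intro σ g hg k hk
    by_cases hr : k ∈ R0
    · have hno : ¬ ∃ g ∈ T3, k ∈ J g ∧ k ∉ R0 := by
        rintro ⟨_, _, _, h⟩
        exact h hr
      have hu : u g k = v g k := (hpq g hg.1).1 k hr
      have hval : mrg σ k = ρ ⟨k, hr⟩ := by
        simp only [mrg]
        rw [dif_neg hno, dif_pos hr]
      rw [hval, ← hu, ite_self]
      exact (h3ρ g hg k hr).symm
    · have hyes : ∃ g ∈ T3, k ∈ J g ∧ k ∉ R0 := ⟨g, hg, hk, hr⟩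
      have heq : hyes.choose = g :=
        hdisj _ hyes.choose_spec.1.1.1 g hg.1.1 k hyes.choose_spec.2.1 hk hr
      simp only [mrg, hyes, dif_pos, heq]
  refine card_le_of_family hS T3 Subtype.val (fun h => ?_)
  by_cases hh : (p0 : ℝ) < h.1 (f (mrg fun _ => false))
  · refine ⟨{g | (p0 : ℝ) < g.1 (f (mrg fun _ => false))}, ?_, hh, ?_⟩
    · exact isOpen_lt continuous_const ((continuous_apply _).comp continuous_subtype_val)
    · intro i j hi
      exfalso
      have h1 : i.1.1 (f (mrg fun _ => false)) = i.1.1 (f (u i.1)) := by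
        apply hJ
        intro k hk
        have hm := hmrg (fun _ => false) i.1 i.2 k hk
        rw [hm]
        simp
      have h2 := (hpq i.1 i.2.1).2.1
      rw [h3p i.1 i.2] at h2
      have h3 : (p0 : ℝ) < i.1.1 (f (mrg fun _ => false)) := hi
      rw [h1] at h3
      exact absurd h2 (not_lt.2 h3.le)
  · have hpq0 : (p0 : ℝ) < q0 := by
      obtain ⟨g, hg⟩ : T3.Nonempty := by
        by_contra hne
        rw [not_nonempty_iff_eq_empty] at hne
        apply hT3
        change #T3 ≤ _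
        rw [hne]
        simp
      have := (hpq g hg.1).2.2.1
      rw [h3p g hg, h3q g hg] at this
      exact_mod_cast this
    have hlt0 : h.1 (f (mrg fun _ => false)) < q0 := (not_lt.1 hh).trans_lt hpq0
    obtain ⟨F, hF⟩ := nhds_fin_bool (mrg fun _ => false) {x | h.1 (f x) < q0}
      ((isOpen_lt (h.2.comp hf) continuous_const).mem_nhds hlt0)
    let σ : Fn X → Bool := fun g => decide (∀ k ∈ F, ¬ (k ∈ J g ∧ k ∉ R0))
    have hagree : ∀ k ∈ F, mrg σ k = mrg (fun _ => false) k := by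
      intro k hk
      by_cases hyes : ∃ g ∈ T3, k ∈ J g ∧ k ∉ R0
      · have hσ : σ hyes.choose = false := by
          simp only [σ, decide_eq_false_iff_not]
          push Not
          exact ⟨k, hk, hyes.choose_spec.2⟩
        simp only [mrg, hyes, dif_pos, hσ]
      · simp only [mrg, hyes, dif_neg, not_false_eq_true]
    have hx : h.1 (f (mrg σ)) < q0 := hF _ hagree
    let O1 : Set (Fn X) := {g | g.1 (f (mrg σ)) < q0}
    have hO1 : IsOpen O1 :=
      isOpen_lt ((continuous_apply _).comp continuous_subtype_val) continuous_const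
    have hfin : (T3 ∩ O1).Finite := by
      refine Set.Finite.subset (s := ⋃ k ∈ F, {g | g ∈ T3 ∧ k ∈ J g ∧ k ∉ R0}) ?_ ?_
      · refine Set.Finite.biUnion F.finite_toSet fun k _ => Set.Subsingleton.finite ?_
        rintro g ⟨hg, hk, hr⟩ g' ⟨hg', hk', -⟩
        exact hdisj g hg.1.1 g' hg'.1.1 k hk hk' hr
      · rintro g ⟨hg, hgO⟩
        by_contra hcon
        simp only [mem_iUnion, mem_ofPred_eq, not_exists] at hcon
        have hσ : σ g = true := by
          simp only [σ, decide_eq_true_eq]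
          intro k hk hk2
          exact hcon k hk ⟨hg, hk2⟩
        have h1 : g.1 (f (mrg σ)) = g.1 (f (v g)) := by
          apply hJ
          intro k hk
          rw [hmrg _ g hg k hk, if_pos hσ]
        have h2 := (hpq g hg.1).2.2.2
        rw [h3q g hg, ← h1] at h2
        exact absurd hgO (not_lt.2 h2.le)
    refine ⟨O1 ∩ ((T3 ∩ O1) \ {h})ᶜ, hO1.inter (hfin.subset diff_subset).isClosed.isOpen_compl,
      ⟨hx, fun hcon => hcon.2 rfl⟩, ?_⟩
    have key : ∀ i : T3, i.1 ∈ O1 ∩ ((T3 ∩ O1) \ {h})ᶜ → i.1 = h := by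
      rintro i ⟨hi, hi2⟩
      by_contra hne
      exact hi2 ⟨⟨i.2, hi⟩, hne⟩
    intro i j hi hj
    exact Subtype.ext ((key i hi).trans (key j hj).symm)

/-- the cozero sets form a base -/
theorem exists_base {X : Type} [TopologicalSpace X] [CompactSpace X] [T2Space X] :
    ∃ B : Set (Set X), IsTopologicalBasis B ∧ #B ≤ #(Fn X) := by
  refine ⟨range fun g : Fn X => {x | g.1 x ≠ 0}, ?_, Cardinal.mk_range_le⟩
  refine isTopologicalBasis_of_isOpen_of_nhds ?_ ?_
  · rintro _ ⟨g, rfl⟩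
    exact isOpen_ne_fun g.2 continuous_const
  · intro x U hx hU
    obtain ⟨g, hg0, hg1, -⟩ := exists_continuous_zero_one_of_isClosed hU.isClosed_compl
      (isClosed_singleton (x := x)) (by
        rw [disjoint_singleton_right]
        exact fun h => h hx)
    refine ⟨_, ⟨⟨g, g.continuous⟩, rfl⟩, ?_, ?_⟩
    · change g x ≠ 0
      rw [hg1 rfl]
      exact one_ne_zero
    · intro y hy
      by_contra hyU
      exact hy (hg0 hyU)

end Pool.Agent.Y509.DyadicCp
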