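import Mathlib
import Pool.Agent.Y509.DyadicCp.Big

set_option autoImplicit false

/-!
# Networks, separability and weight
-/

open Set Topology Cardinal TopologicalSpace

namespace Pool.Agent.Y509.DyadicCp

open Pool.Agent.Results.MP_158c61_gt.CantorCube (Subparacompact HereditarilySubparacompact
  DyadicCompact DiscreteFamily)

/-- `Z` has a network which is the union of countably many locally finite families of closed
sets (for regular spaces: `Z` is a sigma-space). -/
def SigmaSpace (Z : Type) [TopologicalSpace Z] : Prop :=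
  ∃ (J : ℕ → Type) (N : (n : ℕ) → J n → Set Z), (∀ n, LocallyFinite (N n)) ∧
    (∀ n j, IsClosed (N n j)) ∧ ∀ z : Z, ∀ W ∈ 𝓝 z, ∃ n j, z ∈ N n j ∧ N n j ⊆ W

lemma sigma_cube : SigmaSpace (Fn ((ℕ → Bool) → Bool)) := by
  haveI : Nonempty Pool.Agent.Results.MP_158c61_gt.CantorCube.Param :=
    ⟨⟨0, 0, 0, 0, 0, fun _ => 0⟩⟩
  obtain ⟨e, he⟩ := exists_surjective_nat Pool.Agent.Results.MP_158c61_gt.CantorCube.Param
  refine ⟨fun n => (Fin (e n).1 → (ℕ → Bool)),
    fun n F => Pool.Agent.Results.MP_158c61_gt.CantorCube.NN (e n) F,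
    fun n => Pool.Agent.Results.MP_158c61_gt.CantorCube.NN_locallyFinite (e n),
    fun n F => Pool.Agent.Results.MP_158c61_gt.CantorCube.NN_closed (e n) F, fun f W hW => ?_⟩
  obtain ⟨p, F, h1, h2⟩ := Pool.Agent.Results.MP_158c61_gt.CantorCube.NN_network f W hW
  obtain ⟨n, rfl⟩ := he p
  exact ⟨n, F, h1, h2⟩

lemma sigma_of_embedding {Y W : Type} [TopologicalSpace Y] [TopologicalSpace W] (e : Y → W)
    (he : IsEmbedding e) (h : SigmaSpace W) : SigmaSpace Y := by
  obtain ⟨J, N, h1, h2, h3⟩ := h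
  refine ⟨J, fun n j => e ⁻¹' (N n j), fun n => (h1 n).preimage_continuous he.continuous,
    fun n j => (h2 n j).preimage he.continuous, fun z V hV => ?_⟩
  rw [he.nhds_eq_comap, Filter.mem_comap] at hV
  obtain ⟨V', hV', hsub⟩ := hV
  obtain ⟨n, j, hz, hN⟩ := h3 (e z) V' hV'
  exact ⟨n, j, hz, (preimage_mono hN).trans hsub⟩

lemma hereditarily_of_sigma {Y : Type} [TopologicalSpace Y] (h : SigmaSpace Y) :
    HereditarilySubparacompact Y := by
  obtain ⟨J, N, h1, h2, h3⟩ := h
  exact Pool.Agent.Results.MP_158c61_gt.CantorCube.hereditarily_of_network J N h1 h2 h3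

/-- if `C_p(X)` is a sigma-space, then `X` has a countable dense subset -/
theorem dense_of_sigma {X : Type} [TopologicalSpace X] [CompactSpace X] [T2Space X]
    (h : SigmaSpace (Fn X)) : ∃ C : Set X, C.Countable ∧ Dense C := by
  obtain ⟨J, N, h1, h2, h3⟩ := h
  let z : Fn X := ⟨fun _ => 0, continuous_const⟩
  have hU : ∀ n, ∃ V ∈ 𝓝 z, ∀ g ∈ V, ∀ j, g ∈ N n j → z ∈ N n j := fun n =>
    Pool.Agent.Results.MP_158c61_gt.CantorCube.exists_nhd (N n) (h1 n) (h2 n) z
  choose V hV hV2 using hU
  have hI : ∀ n, ∃ I : Finset X, ∀ g : Fn X, (∀ x ∈ I, g.1 x = z.1 x) → g ∈ V n :=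
    fun n => nhds_fin z (V n) (hV n)
  choose I hI using hI
  refine ⟨⋃ n, (I n : Set X), countable_iUnion fun n => (I n).countable_toSet, ?_⟩
  rw [dense_iff_closure_eq]
  by_contra hne
  obtain ⟨x, hx⟩ : ∃ x, x ∉ closure (⋃ n, (I n : Set X)) := by
    by_contra hcon
    push Not at hcon
    exact hne (eq_univ_iff_forall.2 hcon)
  obtain ⟨g, hg0, hg1, -⟩ := exists_continuous_zero_one_of_isClosed
    (isClosed_closure (s := ⋃ n, (I n : Set X))) (isClosed_singleton (x := x)) (by
      rw [disjoint_singleton_right]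
      exact hx)
  let g' : Fn X := ⟨g, g.continuous⟩
  have hgV : ∀ n, g' ∈ V n := fun n => hI n g' fun y hy =>
    hg0 (subset_closure (mem_iUnion.2 ⟨n, hy⟩))
  have hgx : g'.1 x = 1 := hg1 rfl
  obtain ⟨n, j, hj1, hj2⟩ := h3 g' {f : Fn X | f.1 x ≠ 0} (by
    refine (isOpen_ne_fun ((continuous_apply x).comp continuous_subtype_val)
      continuous_const).mem_nhds ?_
    change g'.1 x ≠ 0
    rw [hgx]
    exact one_ne_zero)
  exact hj2 (hV2 n g' (hgV n) j hj1) rfl

/-- a separable regular space has weight at most `𝔠` -/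
theorem base_of_dense {X : Type} [TopologicalSpace X] [CompactSpace X] [T2Space X]
    (C : Set X) (hC : C.Countable) (hd : Dense C) :
    ∃ B : Set (Set X), IsTopologicalBasis B ∧ #B ≤ 𝔠 := by
  refine ⟨(fun A => interior (closure A)) '' (𝒫 C), ?_, ?_⟩
  · refine isTopologicalBasis_of_isOpen_of_nhds ?_ ?_
    · rintro _ ⟨A, -, rfl⟩
      exact isOpen_interior
    · intro x U hx hU
      obtain ⟨V, hV, hxV, hVU⟩ : ∃ V, IsOpen V ∧ x ∈ V ∧ closure V ⊆ U := by
        obtain ⟨K, hK, hKc, hKU⟩ := exists_mem_nhds_isClosed_subset (hU.mem_nhds hx)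
        exact ⟨interior K, isOpen_interior, mem_interior_iff_mem_nhds.2 hK,
          (closure_minimal interior_subset hKc).trans hKU⟩
      have hcl : closure (V ∩ C) = closure V :=
        le_antisymm (closure_mono inter_subset_left)
          (closure_minimal (hd.open_subset_closure_inter hV) isClosed_closure)
      refine ⟨_, ⟨V ∩ C, inter_subset_right, rfl⟩, ?_, ?_⟩
      · change x ∈ interior (closure (V ∩ C))
        rw [hcl]
        exact interior_mono subset_closure (by rwa [hV.interior_eq])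
      · change interior (closure (V ∩ C)) ⊆ U
        rw [hcl]
        exact interior_subset.trans hVU
  · refine Cardinal.mk_image_le.trans ?_
    rw [Cardinal.mk_powerset]
    calc (2 : Cardinal.{0}) ^ #C ≤ 2 ^ ℵ₀ :=
          Cardinal.power_le_power_left two_ne_zero (Cardinal.le_aleph0_iff_set_countable.2 hC)
      _ = 𝔠 := Cardinal.two_power_aleph0

/-- uncountable Cantor cubes are not metrizable -/
theorem not_metrizable (κ : Type) [Uncountable κ] : ¬ MetrizableSpace (κ → Bool) := by
  classical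
  intro hm
  have h1 : IsGδ ({fun _ => false} : Set (κ → Bool)) := IsGδ.singleton _
  obtain ⟨T, hT, hTc, hTe⟩ := h1
  have h2 : ∀ U ∈ T, ∃ I : Finset κ, ∀ x : κ → Bool, (∀ z ∈ I, x z = false) → x ∈ U := by
    intro U hU
    have hmem : (fun _ => false : κ → Bool) ∈ U := by
      have : (fun _ => false : κ → Bool) ∈ ⋂₀ T := by rw [← hTe]; exact rfl
      exact this U hU
    obtain ⟨F, hF⟩ := nhds_fin_bool _ U ((hT U hU).mem_nhds hmem)
    exact ⟨F, hF⟩
  choose! I hI using h2
  have hcount : (⋃ U ∈ T, (I U : Set κ)).Countable :=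
    hTc.biUnion fun U _ => (I U).countable_toSet
  have hex : ∃ z : κ, z ∉ ⋃ U ∈ T, (I U : Set κ) := by
    by_contra hcon
    push Not at hcon
    have h3 : (univ : Set κ).Countable := hcount.mono fun z _ => hcon z
    exact not_countable (countable_univ_iff.1 h3)
  obtain ⟨z, hz⟩ := hex
  let x : κ → Bool := fun z' => decide (z' = z)
  have hx : x ∈ ⋂₀ T := by
    intro U hU
    apply hI U hU
    intro z' hz'
    simp only [x, decide_eq_false_iff_not]
    rintro rfl
    exact hz (mem_biUnion hU hz')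
  rw [← hTe] at hx
  have : x z = false := congrFun hx z
  simp [x] at this

end Pool.Agent.Y509.DyadicCp
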